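import Pool.Agent.H194Z.IsingEx

set_option autoImplicit false

namespace Pool.Agent.Results.MP_199736_pr.AIsingCounterexample

open Pool.Agent.H194Z.Ising

/-- Q1 fails: there are a finite graph `G`, `β > 0`, `t > 0` and configurations `x`, `y` such that
for the ferromagnetic Ising Glauber dynamics the total variation distance between `P^t(x,·)` and
`P^t(y,·)` is strictly larger than the one between the all-plus and the all-minus starts. -/
theorem result : ∃ (n : ℕ) (G : SimpleGraph (Fin n)) (β t : ℝ) (x y : Fin n → Bool),
    0 < β ∧ 0 < t ∧
      tv (glauber G β t fun _ => true) (glauber G β t fun _ => false) <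
        tv (glauber G β t x) (glauber G β t y) :=
  ⟨9, G9, β0, t0, x0, y0, β0_pos, by unfold t0; positivity, main⟩

end Pool.Agent.Results.MP_199736_pr.AIsingCounterexample
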